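import Pool.Agent.Helper2_Pak.Final

/-!
# Geometric packing with congruent copies of one polygon is hard for the existential theory of the reals

For every `k ≥ 1` geometric packing of polygonal pieces into a simple polygon under rigid motions
(translations and rotations), restricted to the instances whose pieces fall into at most `k` shape
classes, is `∃ℝ`-hard.  In particular this holds for `k = 1`: all pieces are congruent copies of a
single polygon.  The definitions are in `Pool.Agent.Helper2_Pack.Defs` and
`Pool.Agent.Helper53_Closed.Defs`.

Idea of the proof.  All pieces are copies of one nearly square polygon of width `1` and height
`1 + t ^ 2`, with bumps, dents, pits and two long slits.  The container consists of columns of unit
cells of different heights; a small area bound puts one piece into every cell, in one of four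
orientations.  A piece in an odd orientation is wider and lower than a piece in an even orientation,
therefore the widths of the rows and the heights of the columns prescribe the numbers of odd pieces
in all rows and columns, and the layout is such that these numbers determine the positions of the
odd pieces (discrete tomography).  After this there is no room for a gap of the height of a bump,
which fixes the four orientations.  The remaining displacements of the rows carry real numbers;
pieces in odd orientations add and subtract them along the columns, and a piece which hangs on a
thin spike of the container and touches the bumps of two columns turns them into a quadratic
inequality.
-/

namespace Pool.Agent.Results.MP_c3daa6_lc.OneShape

open Pool.Agent.Helper2_Pack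

/-- For every `k ≥ 1`, geometric packing with at most `k` piece shapes is `∃ℝ`-hard. -/
theorem result : ∀ k : ℕ, 1 ≤ k → ExistsRHard (packing k) :=
  Pool.Agent.Helper2_Pak.final

end Pool.Agent.Results.MP_c3daa6_lc.OneShape
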